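import Pool.Agent.H66.FA.T

/-!
# Minkowski norms: the level sets are compact
-/

set_option autoImplicit false

open Matrix

namespace Pool.Agent.H33.FA

open Pool.Agent.H66.FA Pool.Agent.H63.Fins MeasureTheory Filter Topology

theorem pf_CPT (h1 : T_EUL) (h2 : T_REG) : T_CPT := by
  intro n L hL
  have hc : Continuous L := (h2 n L hL).1
  have hpos : ∀ y : V n, y ≠ 0 → 0 < L y := fun y hy => (h1 n L hL y hy).2.2.2.1
  have key : ∃ a : ℝ, 0 < a ∧ ∀ y, a * ‖y‖ ^ 2 ≤ L y := by
    by_cases hne : (Metric.sphere (0 : V n) 1).Nonempty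
    · obtain ⟨y0, hy0, hmin⟩ := (isCompact_sphere (0 : V n) 1).exists_isMinOn hne hc.continuousOn
      have hn0 : ‖y0‖ = 1 := by simpa using hy0
      have hy00 : y0 ≠ 0 := by
        intro h
        rw [h, norm_zero] at hn0
        norm_num at hn0
      refine ⟨L y0, hpos y0 hy00, fun y => ?_⟩
      by_cases hy : y = 0
      · rw [hy, norm_zero, hL.zero]
        norm_num
      · have hny : 0 < ‖y‖ := norm_pos_iff.mpr hy
        have hmem : ‖y‖⁻¹ • y ∈ Metric.sphere (0 : V n) 1 := by
          rw [mem_sphere_zero_iff_norm, norm_smul, norm_inv, norm_norm,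
            inv_mul_cancel₀ hny.ne']
        have h3 : L y0 ≤ L (‖y‖⁻¹ • y) := hmin hmem
        have h4 : L y = ‖y‖ ^ 2 * L (‖y‖⁻¹ • y) := by
          rw [← hL.homog (‖y‖⁻¹ • y) ‖y‖ hny, smul_smul, mul_inv_cancel₀ hny.ne', one_smul]
        rw [h4, mul_comm]
        exact mul_le_mul_of_nonneg_left h3 (by positivity)
    · refine ⟨1, one_pos, fun y => ?_⟩
      by_cases hy : y = 0
      · rw [hy, norm_zero, hL.zero]
        norm_num
      · exfalso
        have hny : 0 < ‖y‖ := norm_pos_iff.mpr hy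
        refine hne ⟨‖y‖⁻¹ • y, ?_⟩
        rw [mem_sphere_zero_iff_norm, norm_smul, norm_inv, norm_norm,
          inv_mul_cancel₀ hny.ne']
  refine ⟨key, fun c _ => ?_⟩
  obtain ⟨a, ha, hbd⟩ := key
  refine Metric.isCompact_of_isClosed_isBounded (isClosed_eq hc continuous_const) ?_
  refine (Metric.isBounded_closedBall (x := (0 : V n)) (r := Real.sqrt (c / a))).subset ?_
  intro y hy
  have hy' : L y = c := hy
  rw [mem_closedBall_zero_iff]
  refine Real.le_sqrt_of_sq_le ?_
  rw [le_div_iff₀ ha, mul_comm]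
  exact (hbd y).trans hy'.le

end Pool.Agent.H33.FA
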