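import Pool.Agent.H66.FA.T

/-!
# Minkowski norms: convexity
-/

set_option autoImplicit false

open Matrix

namespace Pool.Agent.H33.FA

open Pool.Agent.H66.FA Pool.Agent.H63.Fins MeasureTheory Filter Topology

theorem pf_CVX (h1 : T_EUL) (h2 : T_REG) : T_CVX := by
  intro n L hL y w hy
  obtain ⟨hc, -, hd1, -, -, -, hreg⟩ := h2 n L hL
  have hpos : ∀ y : V n, y ≠ 0 → 0 < L y := fun y hy => (h1 n L hL y hy).2.2.2.1
  have hnn : ∀ z : V n, 0 ≤ L z := by
    intro z
    by_cases hz : z = 0
    · rw [hz, hL.zero]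
    · exact (hpos z hz).le
  have hyy : d1 L y y = 2 * L y := (h1 n L hL y hy).1
  by_cases hcase : ∃ s : ℝ, 0 ≤ s ∧ w = -(s • y)
  · obtain ⟨s, hs, rfl⟩ := hcase
    have h3 : d1 L y (-(s • y)) = -(s * d1 L y y) := by
      unfold d1
      rw [map_neg, map_smul, smul_eq_mul]
    rw [h3, hyy]
    have h4 := hnn (-(s • y))
    have h5 := hpos y hy
    have h6 : 0 ≤ s * (2 * L y) := by positivity
    linarith
  · have hseg : ∀ t : ℝ, 0 ≤ t → t ≤ 1 → y + t • (w - y) ≠ 0 := by
      intro t ht0 ht1 h0
      rcases ht0.eq_or_lt with h | h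
      · rw [← h, zero_smul, add_zero] at h0
        exact hy h0
      · refine hcase ⟨(1 - t) / t, by have : 0 ≤ 1 - t := by linarith
                                      positivity, ?_⟩
        have h3 : t • w = -((1 - t) • y) := by
          have h4 : t • w + (1 - t) • y = y + t • (w - y) := by
            rw [smul_sub, sub_smul, one_smul]
            abel
          rw [h0] at h4
          exact eq_neg_of_add_eq_zero_left h4
        have h5 : w = t⁻¹ • (t • w) := by
          rw [smul_smul, inv_mul_cancel₀ h.ne', one_smul]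
        rw [h5, h3, smul_neg, smul_smul]
        congr 2
        rw [div_eq_inv_mul]
    -- the line
    have hline : ∀ t : ℝ, HasDerivAt (fun t : ℝ => y + t • (w - y)) (w - y) t := by
      intro t
      have h3 := (hasDerivAt_id t).smul_const (w - y)
      rw [one_smul] at h3
      exact h3.const_add y
    have hf : ∀ t : ℝ, 0 ≤ t → t ≤ 1 → HasDerivAt (fun t : ℝ => L (y + t • (w - y)))
        (d1 L (y + t • (w - y)) (w - y)) t := by
      intro t ht0 ht1
      exact (hreg _ (hseg t ht0 ht1)).1.comp_hasDerivAt t (hline t)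
    have hg : ∀ t : ℝ, 0 ≤ t → t ≤ 1 → HasDerivAt (fun t : ℝ => d1 L (y + t • (w - y)) (w - y))
        (d2 L (y + t • (w - y)) (w - y) (w - y)) t := by
      intro t ht0 ht1
      have hz := hseg t ht0 ht1
      have hop : IsOpen {z : V n | z ≠ 0} := isOpen_ne
      have h3 : DifferentiableAt ℝ (fun z => d1 L z (w - y)) (y + t • (w - y)) :=
        (((hd1 (w - y)).contDiffAt (hop.mem_nhds hz)).differentiableAt (by simp))
      have h4 := h3.hasFDerivAt.comp_hasDerivAt t (hline t)
      rw [(hreg _ hz).2.1 (w - y) (w - y)] at h4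
      exact h4
    obtain ⟨c, hcm, hceq⟩ := exists_hasDerivAt_eq_slope (fun t : ℝ => L (y + t • (w - y)))
      (fun t => d1 L (y + t • (w - y)) (w - y)) (zero_lt_one)
      (fun t ht => (hf t ht.1 ht.2).continuousAt.continuousWithinAt)
      (fun t ht => hf t ht.1.le ht.2.le)
    obtain ⟨c', hcm', hceq'⟩ := exists_hasDerivAt_eq_slope
      (fun t : ℝ => d1 L (y + t • (w - y)) (w - y))
      (fun t => d2 L (y + t • (w - y)) (w - y) (w - y)) hcm.1
      (fun t ht => (hg t ht.1 (ht.2.trans hcm.2.le)).continuousAt.continuousWithinAt)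
      (fun t ht => hg t ht.1.le (ht.2.le.trans hcm.2.le))
    have h7 : 0 ≤ d2 L (y + c' • (w - y)) (w - y) (w - y) := by
      by_cases hwy : w - y = 0
      · rw [hwy]
        unfold d2
        simp
      · exact (hL.pos _ _ (hseg c' hcm'.1.le (hcm'.2.le.trans hcm.2.le)) hwy).le
    simp only [one_smul, zero_smul, add_zero, sub_zero, div_one, add_sub_cancel] at hceq
    simp only [zero_smul, add_zero, sub_zero] at hceq'
    rw [hceq'] at h7
    have h8 : 0 ≤ d1 L (y + c • (w - y)) (w - y) - d1 L y (w - y) := by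
      by_contra hneg
      push Not at hneg
      exact absurd h7 (not_le.mpr (div_neg_of_neg_of_pos hneg hcm.1))
    have h9 : d1 L y (w - y) = d1 L y w - d1 L y y := by
      unfold d1
      rw [map_sub]
    rw [h9, hyy, hceq] at h8
    linarith

end Pool.Agent.H33.FA
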